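import Pool.Agent.MP_a2d820_lc.h31.Game

/-! The lower bound when the predicates of the second player are monotone. -/

set_option autoImplicit false

namespace Pool.Agent.MP_a2d820_lc.h31

open Finset

/-- the input of the second player attached to a set of leaves and to the bits `ξ` -/
def inp {L : Type} (π : Bool) (I : L → Prop) (ξ : L → Bool) : Set (L × Bool) :=
  {c | Tr π (I c.1 ∧ c.2 = ξ c.1)}

theorem inp_leaf {L : Type} (π : Bool) (I : L → Prop) (ξ : L → Bool) (l : L) (h : I l) :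
    Tr π ((l, ξ l) ∈ inp π I ξ) := by
  cases π <;> simp [inp, Tr, h]

theorem cross_aux {L : Type} {P : Set (L × Bool) → Prop} (hP : ∀ z z', z ⊆ z' → P z → P z')
    {I I' : L → Prop} {ξ ξ' : L → Bool} {μ : L} (hμ : ∀ l, I l → I' l → l = μ)
    (h : P (inp true I ξ)) (h' : ¬ P (inp false I' ξ')) : ξ μ = ξ' μ := by
  by_contra hne
  refine h' (hP _ _ ?_ h)
  rintro ⟨l, β⟩ hc
  simp only [inp, Set.mem_ofPred_eq, Tr_true, Tr_false] at hc ⊢
  rintro ⟨h1, h2⟩
  obtain rfl := hμ l hc.1 h1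
  exact hne (hc.2.symm.trans h2)

theorem cross {L : Type} {P : Set (L × Bool) → Prop} (hP : ∀ z z', z ⊆ z' → P z → P z')
    {π : Bool} {I I' : L → Prop} {ξ ξ' : L → Bool} {μ : L} (hμ : ∀ l, I l → I' l → l = μ)
    (h : Tr π (P (inp π I ξ))) (h' : Tr (!π) (P (inp (!π) I' ξ'))) : ξ μ = ξ' μ := by
  cases π
  · exact (cross_aux hP (fun l a b => hμ l b a) (Tr_true.1 h') (Tr_false.1 h)).symm
  · exact cross_aux hP hμ (Tr_true.1 h) (Tr_false.1 h')

section
variable {L : Type} [DecidableEq L]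

open Classical in
/-- the bit patterns accepted by a predicate -/
noncomputable def fam (Lv : Finset L) (P : Set (L × Bool) → Prop) (π : Bool) (I : L → Prop) :
    Finset (Finset L) :=
  Lv.powerset.filter fun X => Tr π (P (inp π I fun l => decide (l ∈ X)))

open Classical in
/-- the leaves whose bit is constant on a family -/
noncomputable def cst (Lv : Finset L) (F : Finset (Finset L)) : Finset L :=
  Lv.filter fun l => ∀ X ∈ F, ∀ X' ∈ F, (l ∈ X ↔ l ∈ X')

/-- bad patterns -/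
def Bad (Lv : Finset L) (ψ : List ℕ → Set (L × Bool) → Prop) (d : List ℕ) (w : ℕ) (π : Bool)
    (I : L → Prop) (X : Finset L) : Prop :=
  ∃ u ∈ Bx d, X ∈ fam Lv (ψ u) π I ∧ w < (cst Lv (fam Lv (ψ u) π I)).card

open Classical in
theorem bad_card (Lv : Finset L) (ψ : List ℕ → Set (L × Bool) → Prop) (d : List ℕ) (w s : ℕ)
    (hs : d.prod ≤ s) (hw : 8 * s ≤ 2 ^ (w + 1)) (π : Bool) (I : L → Prop) :
    8 * (Lv.powerset.filter (Bad Lv ψ d w π I)).card ≤ Lv.powerset.card := by
  set D := (Bx d).filter fun u => w < (cst Lv (fam Lv (ψ u) π I)).card with hD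
  have h1 : Lv.powerset.filter (Bad Lv ψ d w π I) ⊆ D.biUnion fun u => fam Lv (ψ u) π I := by
    intro X hX
    obtain ⟨u, hu, h2, h3⟩ := (mem_filter.1 hX).2
    exact mem_biUnion.2 ⟨u, mem_filter.2 ⟨hu, h3⟩, h2⟩
  have h2 : ∀ u ∈ D, (fam Lv (ψ u) π I).card * 2 ^ (w + 1) ≤ 2 ^ Lv.card := by
    intro u hu
    have h3 := const_card Lv (fam Lv (ψ u) π I) (filter_subset _ _)
    refine le_trans (Nat.mul_le_mul_left _ (Nat.pow_le_pow_right (by norm_num) ?_)) h3
    have := (mem_filter.1 hu).2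
    unfold cst at this
    convert Nat.succ_le_of_lt this
  have h3 : (∑ u ∈ D, (fam Lv (ψ u) π I).card) * 2 ^ (w + 1) ≤ s * 2 ^ Lv.card := by
    rw [sum_mul]
    refine (sum_le_card_nsmul _ _ _ h2).trans ?_
    rw [smul_eq_mul]
    exact Nat.mul_le_mul_right _ ((card_filter_le _ _).trans ((card_Bx d).trans hs))
  have h4 := (card_le_card h1).trans card_biUnion_le
  rw [card_powerset]
  refine Nat.le_of_mul_le_mul_right ?_ (pow_pos (by norm_num : 0 < 2) (w + 1))
  calc 8 * (Lv.powerset.filter (Bad Lv ψ d w π I)).card * 2 ^ (w + 1)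
      ≤ 8 * ((∑ u ∈ D, (fam Lv (ψ u) π I).card) * 2 ^ (w + 1)) := by
        rw [mul_assoc]
        exact Nat.mul_le_mul_left _ (Nat.mul_le_mul_right _ h4)
    _ ≤ 8 * (s * 2 ^ Lv.card) := Nat.mul_le_mul_left _ h3
    _ = 2 ^ Lv.card * (8 * s) := by ring
    _ ≤ _ := Nat.mul_le_mul_left _ hw

theorem mem_cst {Lv : Finset L} {P : Set (L × Bool) → Prop} (hP : ∀ z z', z ⊆ z' → P z → P z')
    {π : Bool} {I I' : L → Prop} {μ : L} (hμ : ∀ l, I l → I' l → l = μ) (hL : μ ∈ Lv)
    {ξ : L → Bool} (h' : Tr (!π) (P (inp (!π) I' ξ))) : μ ∈ cst Lv (fam Lv P π I) := by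
  classical
  refine mem_filter.2 ⟨hL, fun X hX X' hX' => ?_⟩
  have h1 := cross hP hμ (mem_filter.1 hX).2 h'
  have h2 := cross hP hμ (mem_filter.1 hX').2 h'
  simpa using h1.trans h2.symm

end

theorem le_prod_of_mem {d : List ℕ} (h : ∀ e ∈ d, 0 < e) {e : ℕ} (he : e ∈ d) : e ≤ d.prod :=
  Nat.le_of_dvd (List.prod_pos h) (List.dvd_prod he)

theorem core (m k : ℕ) (σ b : Bool) (d : List ℕ) (s : ℕ) (hpos : ∀ e ∈ d, 0 < e)
    (hs : d.prod ≤ s) (hj : d.length ≤ k ∨ (d.length = k + 1 ∧ b = !σ))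
    (φ : List ℕ → (List (Fin m) → Bool) → Prop)
    (ψ : List ℕ → Set (List (Fin m) × Bool) → Prop)
    (hmono : ∀ u z z', z ⊆ z' → ψ u z → ψ u z')
    (h : ∀ ξ z, Alt b d (fun u => φ u ξ) (fun u => ψ u z) ↔
      G m σ (k + 1) fun l => (l, ξ l) ∈ z) :
    2 ^ m ≤ (4 * s) ^ 4 := by
  classical
  by_contra hm
  have hs0 : 0 < s := lt_of_lt_of_le (List.prod_pos hpos) hs
  have hm0 : 0 < m := by
    rcases Nat.eq_zero_or_pos m with h0 | h0
    · subst h0
      exact (hm (Nat.one_le_pow _ _ (by omega))).elim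
    · exact h0
  set w := m / 2 with hw
  have hw1 : 4 * w < 3 * m := by omega
  have hw2 : 8 * s ≤ 2 ^ (w + 1) := by
    by_contra hc
    apply hm
    have h1 : 2 ^ w ≤ 4 * s := by rw [pow_succ] at hc; omega
    calc 2 ^ m ≤ 2 ^ (w + w + 1) := Nat.pow_le_pow_right (by norm_num) (by omega)
      _ = 2 ^ w * 2 ^ w * 2 := by ring
      _ ≤ (4 * s) * (4 * s) * ((4 * s) * (4 * s)) :=
          Nat.mul_le_mul (Nat.mul_le_mul h1 h1) (by nlinarith)
      _ = _ := by ring
  have := St_finite m (k + 1) false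
  have := St_nonempty hm0 (k + 1) false
  have := St_finite m (k + 1) true
  have := St_nonempty hm0 (k + 1) true
  have := Fintype.ofFinite (St m (k + 1) false)
  have := Fintype.ofFinite (St m (k + 1) true)
  set Lv := (List.finite_length_eq (Fin m) (k + 1)).toFinset with hLv
  obtain ⟨X, hX, hO, hR⟩ := avg Lv.powerset ⟨∅, empty_mem_powerset _⟩
    (fun α : St m (k + 1) true => Bad Lv ψ d w σ (In m (k + 1) true α))
    (fun β : St m (k + 1) false => Bad Lv ψ d w (!σ) (In m (k + 1) false β))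
    (fun α => by convert bad_card Lv ψ d w s hs hw2 σ _)
    (fun β => by convert bad_card Lv ψ d w s hs hw2 (!σ) _)
  rw [← Nat.card_eq_fintype_card] at hO hR
  set ξ : List (Fin m) → Bool := fun l => decide (l ∈ X) with hξ
  refine win_start hw1 hm hs0 d k σ b hj
    (fun e he => ⟨hpos e he, (le_prod_of_mem hpos he).trans hs⟩) (fun u => φ u ξ) _ _
    (fun α u => ψ u (inp σ (In m (k + 1) true α) ξ))
    (fun β u => ψ u (inp (!σ) (In m (k + 1) false β) ξ))
    (fun α u => if (cst Lv (fam Lv (ψ u) σ (In m (k + 1) true α))).card ≤ w then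
      cst Lv (fam Lv (ψ u) σ (In m (k + 1) true α)) else ∅)
    (fun β u => if (cst Lv (fam Lv (ψ u) (!σ) (In m (k + 1) false β))).card ≤ w then
      cst Lv (fam Lv (ψ u) (!σ) (In m (k + 1) false β)) else ∅)
    hO (le_trans (by omega) hR) ?_ ?_ ?_ ?_ ?_
  · intro α _
    unfold Tr
    rw [h]
    exact (G_value m (k + 1) σ _).1 α fun l hl => inp_leaf σ _ ξ l hl
  · intro β _
    unfold Tr
    rw [h]
    have := (G_value m (k + 1) (!σ) _).2 β fun l hl => inp_leaf (!σ) _ ξ l hl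
    rwa [Bool.not_not] at this
  · intro α u
    split_ifs with hc
    · exact hc
    · simp
  · intro β u
    split_ifs with hc
    · exact hc
    · simp
  · intro α hα β hβ u hu t1 t2
    have hL : meet m (k + 1) α β ∈ Lv := by
      rw [hLv, Set.Finite.mem_toFinset]
      exact length_meet m _ α β
    have c1 : (cst Lv (fam Lv (ψ u) σ (In m (k + 1) true α))).card ≤ w := by
      by_contra hc
      exact (mem_filter.1 hα).2 ⟨u, hu, mem_filter.2 ⟨hX, t1⟩, by omega⟩
    have c2 : (cst Lv (fam Lv (ψ u) (!σ) (In m (k + 1) false β))).card ≤ w := by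
      by_contra hc
      exact (mem_filter.1 hβ).2 ⟨u, hu, mem_filter.2 ⟨hX, t2⟩, by omega⟩
    simp only [if_pos c1, if_pos c2]
    refine ⟨mem_cst (hmono u) (In_meet m _ α β) hL t2,
      mem_cst (I' := In m (k + 1) true α) (ξ := ξ) (hmono u)
        (fun l a b => In_meet m _ α β l b a) hL ?_⟩
    rwa [Bool.not_not]

end Pool.Agent.MP_a2d820_lc.h31
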