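import Pool.Agent.MP_a2d820_lc.h31.Defs

/-! Counting lemmas. -/

set_option autoImplicit false

namespace Pool.Agent.MP_a2d820_lc.h31

open Finset

open Classical in
theorem speech {A : Type} (S : Finset A) (a : ℕ) (ha : 0 < a) (P : ℕ → A → Prop)
    (h : ∀ x ∈ S, ∃ i < a, P i x) : ∃ i < a, S.card ≤ a * (S.filter (P i)).card := by
  have h1 : S.card ≤ ∑ i ∈ range a, (S.filter (P i)).card := by
    refine le_trans (card_le_card (t := (range a).biUnion fun i => S.filter (P i)) ?_)
      card_biUnion_le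
    intro x hx
    obtain ⟨i, hi, hp⟩ := h x hx
    exact mem_biUnion.2 ⟨i, mem_range.2 hi, mem_filter.2 ⟨hx, hp⟩⟩
  have h2 : ∑ _i ∈ range a, S.card ≤ ∑ i ∈ range a, a * (S.filter (P i)).card := by
    rw [← mul_sum, sum_const, card_range, smul_eq_mul]
    exact Nat.mul_le_mul_left _ h1
  obtain ⟨i, hi, h3⟩ := exists_le_of_sum_le (nonempty_range_iff.2 ha.ne') h2
  exact ⟨i, mem_range.1 hi, h3⟩

open Classical in
/-- the fibre of a set of pairs -/
noncomputable def fib {m : ℕ} {A : Type} (O : Finset (Fin m × A)) (i : Fin m) : Finset A :=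
  (O.filter fun z => z.1 = i).image Prod.snd

theorem mem_fib {m : ℕ} {A : Type} {O : Finset (Fin m × A)} {i : Fin m} {a : A} :
    a ∈ fib O i ↔ (i, a) ∈ O := by
  classical
  unfold fib
  simp only [mem_image, mem_filter]
  constructor
  · rintro ⟨⟨j, b⟩, ⟨h1, h2⟩, h3⟩
    simp only at h2 h3
    subst h2 h3
    exact h1
  · intro h
    exact ⟨(i, a), ⟨h, rfl⟩, rfl⟩

theorem card_le_nat {A : Type} [Finite A] (S : Finset A) : S.card ≤ Nat.card A := by
  classical
  have := Fintype.ofFinite A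
  rw [Nat.card_eq_fintype_card]
  exact card_le_univ S

theorem card_le_sum_fib {m : ℕ} {A : Type} (O : Finset (Fin m × A)) :
    O.card ≤ ∑ i, (fib O i).card := by
  classical
  have h1 : O ⊆ univ.biUnion fun i => (fib O i).image fun a => (i, a) := by
    rintro ⟨i, a⟩ h
    exact mem_biUnion.2 ⟨i, mem_univ _, mem_image.2 ⟨a, mem_fib.2 h, rfl⟩⟩
  exact (card_le_card h1).trans (card_biUnion_le.trans (sum_le_sum fun i _ => card_image_le))

open Classical in
theorem fibres {m : ℕ} {A : Type} [Finite A] [Nonempty A] (O : Finset (Fin m × A))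
    (h : 3 * (m * Nat.card A) ≤ 4 * O.card) :
    2 * m ≤ 3 * (univ.filter fun i => Nat.card A ≤ 4 * (fib O i).card).card := by
  set N := Nat.card A with hN
  have hN0 : 0 < N := Nat.card_pos
  set I := univ.filter fun i => N ≤ 4 * (fib O i).card with hI
  have h1 : ∑ i, 4 * (fib O i).card ≤ ∑ i : Fin m, (N + if i ∈ I then 3 * N else 0) := by
    refine sum_le_sum fun i _ => ?_
    have := card_le_nat (fib O i)
    split_ifs with hi
    · omega
    · have : ¬ N ≤ 4 * (fib O i).card := fun h => hi (mem_filter.2 ⟨mem_univ _, h⟩)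
      omega
  rw [← mul_sum, sum_add_distrib, sum_ite_mem, univ_inter, sum_const, sum_const, card_univ,
    Fintype.card_fin, smul_eq_mul, smul_eq_mul] at h1
  have h2 := card_le_sum_fib O
  have h3 : (2 * m) * N ≤ (3 * I.card) * N := by nlinarith
  exact Nat.le_of_mul_le_mul_right h3 hN0

open Classical in
theorem heads {m : ℕ} {A : Type} [Finite A] [Nonempty A] (O : Finset (Fin m × A))
    (h : 3 * (m * Nat.card A) ≤ 4 * O.card) : 3 * m ≤ 4 * (O.image Prod.fst).card := by
  have := Fintype.ofFinite A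
  have hN0 : 0 < Nat.card A := Nat.card_pos
  have h1 : O ⊆ O.image Prod.fst ×ˢ univ := fun z hz =>
    mem_product.2 ⟨mem_image_of_mem _ hz, mem_univ _⟩
  have h2 := card_le_card h1
  rw [card_product, card_univ, ← Nat.card_eq_fintype_card] at h2
  have h3 : (3 * m) * Nat.card A ≤ (4 * (O.image Prod.fst).card) * Nat.card A := by nlinarith
  exact Nat.le_of_mul_le_mul_right h3 hN0

open Classical in
theorem projs {m c : ℕ} {B : Type} [Finite B] [Nonempty B] (R : Finset (Fin m → B))
    (h : Nat.card B ^ m ≤ c * R.card) (I : Finset (Fin m))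
    (hI : ∀ i ∈ I, 4 * (R.image fun β => β i).card ≤ 3 * Nat.card B) :
    4 ^ I.card ≤ 3 ^ I.card * c := by
  set N := Nat.card B with hN
  have hN0 : 0 < N := Nat.card_pos
  have h1 : R ⊆ Fintype.piFinset fun i => R.image fun β => β i := fun β hβ =>
    Fintype.mem_piFinset.2 fun i => mem_image_of_mem _ hβ
  have h2 := card_le_card h1
  rw [Fintype.card_piFinset] at h2
  have h3 : ∏ i, ((if i ∈ I then 4 else 1) * (R.image fun β => β i).card) ≤
      ∏ i : Fin m, ((if i ∈ I then 3 else 1) * N) := by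
    refine prod_le_prod' fun i _ => ?_
    split_ifs with hi
    · exact hI i hi
    · rw [one_mul, one_mul]; exact card_le_nat _
  rw [prod_mul_distrib, prod_mul_distrib, prod_ite_mem, prod_ite_mem, univ_inter, prod_const,
    prod_const, prod_const, card_univ, Fintype.card_fin] at h3
  have h4 : 4 ^ I.card * N ^ m ≤ (3 ^ I.card * c) * N ^ m :=
    calc 4 ^ I.card * N ^ m ≤ 4 ^ I.card * (c * ∏ i, (R.image fun β => β i).card) :=
          Nat.mul_le_mul_left _ (h.trans (Nat.mul_le_mul_left _ h2))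
      _ = c * (4 ^ I.card * ∏ i, (R.image fun β => β i).card) := by ring
      _ ≤ c * (3 ^ I.card * N ^ m) := Nat.mul_le_mul_left _ h3
      _ = _ := by ring
  exact Nat.le_of_mul_le_mul_right h4 (pow_pos hN0 _)

theorem arith {m t c : ℕ} (h : 2 * m ≤ 3 * t) (h2 : 4 ^ t ≤ 3 ^ t * c) : 2 ^ m ≤ c ^ 4 := by
  have h3 : (4 ^ t) ^ 8 ≤ (3 ^ t * c) ^ 8 := Nat.pow_le_pow_left h2 8
  have h4 : 8 ^ t * 6561 ^ t ≤ 65536 ^ t := by
    rw [← mul_pow]; exact Nat.pow_le_pow_left (by norm_num) t
  have e1 : (4 ^ t) ^ 8 = 65536 ^ t := by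
    rw [← pow_mul, mul_comm, pow_mul]; norm_num
  have e2 : (3 ^ t * c) ^ 8 = c ^ 8 * 6561 ^ t := by
    rw [mul_pow, ← pow_mul, mul_comm t 8, pow_mul, mul_comm]; norm_num
  rw [e1, e2] at h3
  have h5 : 8 ^ t ≤ c ^ 8 := Nat.le_of_mul_le_mul_right (h4.trans h3) (by positivity)
  have h6 : (2 ^ m) ^ 2 ≤ (c ^ 4) ^ 2 := by
    rw [← pow_mul, ← pow_mul]
    refine le_trans ?_ h5
    rw [show (8 : ℕ) = 2 ^ 3 by norm_num, ← pow_mul]
    exact Nat.pow_le_pow_right (by norm_num) (by omega)
  exact (Nat.pow_le_pow_iff_left (by norm_num)).1 h6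

open Classical in
theorem descend_aux {m c : ℕ} {A B : Type} [Finite A] [Nonempty A] [Finite B] [Nonempty B]
    (O : Finset (Fin m × A)) (R : Finset (Fin m → B)) (hm : ¬ 2 ^ m ≤ c ^ 4)
    (hO : 3 * (m * Nat.card A) ≤ 4 * O.card) (hR : Nat.card B ^ m ≤ c * R.card) :
    ∃ i, Nat.card A ≤ 4 * (fib O i).card ∧
      3 * Nat.card B ≤ 4 * (R.image fun β => β i).card := by
  by_contra hc
  push Not at hc
  exact hm (arith (fibres O hO)
    (projs R hR _ fun i hi => (hc i (mem_filter.1 hi).2).le))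

open Classical in
theorem double {A C : Type} [Fintype A] (Ω : Finset C) (P : A → C → Prop)
    (hP : ∀ a, 8 * (Ω.filter (P a)).card ≤ Ω.card) :
    8 * ∑ X ∈ Ω, (univ.filter fun a => P a X).card ≤ Fintype.card A * Ω.card := by
  have h1 : ∑ X ∈ Ω, (univ.filter fun a => P a X).card = ∑ a, (Ω.filter (P a)).card := by
    simp only [card_filter]
    exact sum_comm
  rw [h1, mul_sum]
  refine (sum_le_sum fun a _ => hP a).trans ?_
  rw [sum_const, card_univ, smul_eq_mul]

open Classical in
theorem avg {A B C : Type} [Fintype A] [Fintype B] [Nonempty A] [Nonempty B] (Ω : Finset C)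
    (hΩ : Ω.Nonempty) (P : A → C → Prop) (Q : B → C → Prop)
    (hP : ∀ a, 8 * (Ω.filter (P a)).card ≤ Ω.card) (hQ : ∀ b, 8 * (Ω.filter (Q b)).card ≤ Ω.card) :
    ∃ X ∈ Ω, 3 * Fintype.card A ≤ 4 * (univ.filter fun a => ¬ P a X).card ∧
      3 * Fintype.card B ≤ 4 * (univ.filter fun b => ¬ Q b X).card := by
  have h1 := double Ω P hP
  have h2 := double Ω Q hQ
  have hA : 0 < Fintype.card A := Fintype.card_pos
  have hB : 0 < Fintype.card B := Fintype.card_pos
  set NA := Fintype.card A with hNA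
  set NB := Fintype.card B with hNB
  have h3 : ∑ X ∈ Ω, (NB * (4 * (univ.filter fun a => P a X).card) +
      NA * (4 * (univ.filter fun b => Q b X).card)) ≤ ∑ _X ∈ Ω, NA * NB := by
    rw [sum_add_distrib, ← mul_sum, ← mul_sum, ← mul_sum, ← mul_sum, sum_const, smul_eq_mul]
    have e1 := Nat.mul_le_mul_left NB h1
    have e2 := Nat.mul_le_mul_left NA h2
    nlinarith
  obtain ⟨X, hX, h4⟩ := exists_le_of_sum_le hΩ h3
  have h5 : 4 * (univ.filter fun a => P a X).card ≤ NA :=
    Nat.le_of_mul_le_mul_left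
      ((le_trans (Nat.le_add_right _ _) h4).trans_eq (mul_comm _ _)) hB
  have h6 : 4 * (univ.filter fun b => Q b X).card ≤ NB :=
    Nat.le_of_mul_le_mul_left (le_trans (Nat.le_add_left _ _) h4) hA
  have h7 := card_filter_add_card_filter_not (s := (univ : Finset A)) (fun a => P a X)
  have h8 := card_filter_add_card_filter_not (s := (univ : Finset B)) (fun b => Q b X)
  rw [card_univ] at h7 h8
  exact ⟨X, hX, by omega, by omega⟩

open Classical in
/-- a family of subsets of `L` with many constant coordinates is small -/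
theorem const_card {α : Type} [DecidableEq α] (L : Finset α) (F : Finset (Finset α))
    (hF : F ⊆ L.powerset) :
    F.card * 2 ^ (L.filter fun l => ∀ X ∈ F, ∀ X' ∈ F, (l ∈ X ↔ l ∈ X')).card ≤ 2 ^ L.card := by
  set T := L.filter fun l => ∀ X ∈ F, ∀ X' ∈ F, (l ∈ X ↔ l ∈ X') with hT
  have hTL : T ⊆ L := filter_subset _ _
  have h1 : F.card ≤ (L \ T).powerset.card := by
    refine card_le_card_of_injOn (fun X => X \ T) ?_ ?_
    · intro X hX
      have := mem_powerset.1 (hF hX)
      simp only [coe_powerset, Set.mem_preimage, Set.mem_powerset_iff, coe_subset]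
      exact sdiff_subset_sdiff this Subset.rfl
    · intro X hX X' hX' h
      ext l
      by_cases hl : l ∈ T
      · exact (mem_filter.1 hl).2 X hX X' hX'
      · have : l ∈ X \ T ↔ l ∈ X' \ T := by
          simp only at h
          rw [h]
        simpa [hl] using this
  rw [card_powerset, card_sdiff_of_subset hTL] at h1
  have h2 := card_le_card hTL
  calc F.card * 2 ^ T.card ≤ 2 ^ (L.card - T.card) * 2 ^ T.card := Nat.mul_le_mul_right _ h1
    _ = _ := by rw [← pow_add, Nat.sub_add_cancel h2]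

/-- the lists bounded entrywise by `d` -/
def Bx : List ℕ → Finset (List ℕ)
  | [] => {[]}
  | a :: d => (range a ×ˢ Bx d).image fun z => z.1 :: z.2

theorem cons_mem_Bx {a i : ℕ} {d u : List ℕ} (hi : i < a) (hu : u ∈ Bx d) :
    i :: u ∈ Bx (a :: d) :=
  mem_image.2 ⟨(i, u), mem_product.2 ⟨mem_range.2 hi, hu⟩, rfl⟩

theorem card_Bx (d : List ℕ) : (Bx d).card ≤ d.prod := by
  induction d with
  | nil => simp [Bx]
  | cons a d ih =>
    refine card_image_le.trans ?_
    rw [card_product, card_range, List.prod_cons]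
    exact Nat.mul_le_mul_left _ ih

end Pool.Agent.MP_a2d820_lc.h31
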