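import Mathlib

/-! The communication hierarchy of Babai, Frankl and Simon, with Markov's decrease as a measure
of the non-monotonicity of the predicates of the second player. -/

set_option autoImplicit false

namespace Pool.Agent.MP_a2d820_lc.h31

/-- `Alt b d p q`: alternating quantifiers, the first one existential iff `b = true`, the `i`-th
one ranging over the numbers below the `i`-th entry of `d`, applied to `p u ∧ q u` (after an
existential quantifier) or `p u ∨ q u` (after a universal one), `u` the list of chosen numbers -/
def Alt : Bool → List ℕ → (List ℕ → Prop) → (List ℕ → Prop) → Prop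
  | true, [], p, q => p [] ∨ q []
  | false, [], p, q => p [] ∧ q []
  | true, a :: d, p, q => ∃ i < a, Alt false d (fun u => p (i :: u)) (fun u => q (i :: u))
  | false, a :: d, p, q => ∀ i < a, Alt true d (fun u => p (i :: u)) (fun u => q (i :: u))

/-- Markov's decrease of the family `ψ` is at most `a`: along every increasing chain of sets
at most `a` steps switch some `ψ u` from true to false -/
def Dec {ι : Type} (ψ : List ℕ → Set ι → Prop) (a : ℕ) : Prop :=
  ∀ c : ℕ → Set ι, Monotone c → {i | ∃ u, ψ u (c i) ∧ ¬ ψ u (c (i + 1))}.encard ≤ a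

/-- `f` has a protocol with `j` quantifier blocks, first block existential iff `b = true`, size
(product of the ranges) at most `s`, whose predicates of `y` have decrease at most `a` -/
def Rep {X ι : Type} (b : Bool) (j : ℕ) (f : X → Set ι → Prop) (s a : ℕ) : Prop :=
  ∃ (d : List ℕ) (φ : List ℕ → X → Prop) (ψ : List ℕ → Set ι → Prop),
    d.length = j ∧ (∀ e ∈ d, 0 < e) ∧ d.prod ≤ s ∧ Dec ψ a ∧
    ∀ x y, f x y ↔ Alt b d (fun u => φ u x) (fun u => ψ u y)

/-- the list `u` lists the entries of a member of `x` -/
def Mem {K M : ℕ} (x : Set (Fin K → Fin M)) (u : List ℕ) : Prop :=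
  ∃ v ∈ x, List.ofFn (fun i => (v i : ℕ)) = u

/-- the function of Babai, Frankl and Simon with `K` blocks of range `M` -/
def BFS (b : Bool) (K M : ℕ) (x y : Set (Fin K → Fin M)) : Prop :=
  Alt b (List.replicate K M) (Mem x) (Mem y)

end Pool.Agent.MP_a2d820_lc.h31
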