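import Pool.Agent.MP_a2d820_lc.h31.Core

/-! The first player restricts the function to one block of the second player's input. -/

set_option autoImplicit false

namespace Pool.Agent.MP_a2d820_lc.h31

/-- the quantifier after `n` alternations -/
def pol : Bool → ℕ → Bool
  | b, 0 => b
  | b, n + 1 => pol (!b) n

/-- the points with last entry `M - 1` have the truth value `γ` -/
def Kil (M : ℕ) (γ : Bool) (K : ℕ) (q : List ℕ → Prop) : Prop :=
  ∀ u : List ℕ, u.length = K → (∀ e ∈ u, e < M) → Tr γ (q (u ++ [M - 1]))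

theorem Kil.cons {M : ℕ} {γ : Bool} {K : ℕ} {q : List ℕ → Prop} (h : Kil M γ (K + 1) q) {i : ℕ}
    (hi : i < M) : Kil M γ K fun u => q (i :: u) := fun u hu he =>
  h (i :: u) (by simp [hu]) (List.forall_mem_cons.2 ⟨hi, he⟩)

theorem node {E : Type} (M : ℕ) (σ : Bool) (d : List ℕ) (pos : E → ℕ)
    (hinj : Function.Injective pos) (hlt : ∀ e, pos e < M) (pe : E → List ℕ → Prop)
    (pk : List ℕ → Prop) : ∃ p : List ℕ → Prop, ∀ (q : List ℕ → Prop) (B : E → Prop),
    (∀ e, Alt (!σ) d (pe e) (fun u => q (pos e :: u)) ↔ B e) →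
    (∀ i < M, Tr (!σ) (Alt (!σ) d pk fun u => q (i :: u))) →
    (Alt σ (M :: d) p q ↔ cond σ (∃ e, B e) (∀ e, B e)) := by
  let p : List ℕ → Prop := fun u => (∃ e, some (pos e) = u.head? ∧ pe e u.tail) ∨
    ((∀ e, some (pos e) ≠ u.head?) ∧ pk u.tail)
  have h1 : ∀ e, (fun u => p (pos e :: u)) = pe e := by
    intro e
    funext u
    refine propext ⟨?_, fun h => Or.inl ⟨e, rfl, h⟩⟩
    rintro (⟨e', h2, h3⟩ | ⟨h2, _⟩)
    · obtain rfl := hinj (Option.some.inj h2)
      exact h3
    · exact (h2 e rfl).elim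
  have h2 : ∀ i, (∀ e, pos e ≠ i) → (fun u => p (i :: u)) = pk := by
    intro i hi
    funext u
    refine propext ⟨?_, fun h => Or.inr ⟨fun e h' => hi e (Option.some.inj h'), h⟩⟩
    rintro (⟨e', h2, _⟩ | ⟨_, h3⟩)
    · exact (hi e' (Option.some.inj h2)).elim
    · exact h3
  refine ⟨p, fun q B hB hk => ?_⟩
  cases σ
  · show (∀ i < M, Alt true d (fun u => p (i :: u)) (fun u => q (i :: u))) ↔ ∀ e, B e
    constructor
    · intro h e
      have := h _ (hlt e)
      rw [h1] at this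
      exact (hB e).1 this
    · intro h i hi
      by_cases hc : ∃ e, pos e = i
      · obtain ⟨e, rfl⟩ := hc
        rw [h1]
        exact (hB e).2 (h e)
      · rw [h2 i fun e he => hc ⟨e, he⟩]
        exact Tr_true.1 (hk i hi)
  · show (∃ i < M, Alt false d (fun u => p (i :: u)) (fun u => q (i :: u))) ↔ ∃ e, B e
    constructor
    · rintro ⟨i, hi, h⟩
      by_cases hc : ∃ e, pos e = i
      · obtain ⟨e, rfl⟩ := hc
        rw [h1] at h
        exact ⟨e, (hB e).1 h⟩
      · rw [h2 i fun e he => hc ⟨e, he⟩] at h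
        exact (Tr_false.1 (hk i hi) h).elim
    · rintro ⟨e, h⟩
      refine ⟨_, hlt e, ?_⟩
      rw [h1]
      exact (hB e).2 h

theorem neutral (σ : Bool) (q : List ℕ → Prop) :
    Tr (!σ) (Alt (!σ) [] (fun _ => σ = false) q) := by
  cases σ <;> simp [Alt, Tr]

theorem kill {M : ℕ} (hM : 0 < M) (β : Bool) : ∀ (K : ℕ) (σ : Bool), ∃ p : List ℕ → Prop,
    ∀ q, Kil M (pol σ K) K q → Tr β (Alt σ (List.replicate (K + 1) M) p q)
  | 0, σ => by
    obtain ⟨p, hp⟩ := node (E := Unit) M σ [] (fun _ => M - 1) (fun _ _ _ => rfl)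
      (fun _ => by omega) (fun _ _ => β = true) (fun _ => σ = false)
    refine ⟨p, fun q hq => ?_⟩
    have h1 : Tr σ (q [M - 1]) := hq [] rfl (by simp)
    have h2 := hp q (fun _ => β = true) (fun _ => ?_) fun i _ => neutral σ _
    · refine h2.trans ?_
      cases σ <;> simp
    · cases σ
      · simp [Alt, Tr_false.1 h1]
      · simp [Alt, Tr_true.1 h1]
  | K + 1, σ => by
    obtain ⟨p, hp⟩ := kill hM β K (!σ)
    refine ⟨fun u => p u.tail, fun q hq => ?_⟩
    have h1 := fun i (hi : i < M) => hp _ (Kil.cons hq hi)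
    cases σ
    · exact ⟨fun h => (h1 0 hM).1 (h 0 hM), fun h i hi => (h1 i hi).2 h⟩
    · exact ⟨fun ⟨i, hi, h⟩ => (h1 i hi).1 h, fun h => ⟨0, hM, (h1 0 hM).2 h⟩⟩

/-- the position of the leaf `l` with the bit `β` in the block `z` -/
def enc (m : ℕ) : List ℕ → List (Fin m) → Bool → List ℕ
  | [c], [e], β => [2 * m * c + (2 * e + β.toNat)]
  | c :: c' :: z, e :: l, β => (2 * m * c + e) :: enc m (c' :: z) l β
  | _, _, _ => []

theorem blk_lt {m t M c r : ℕ} (hM : 2 * m * t < M) (hc : c < t) (hr : r < 2 * m) :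
    2 * m * c + r < M := by
  have := Nat.mul_le_mul_left (2 * m) (Nat.succ_le_of_lt hc)
  rw [Nat.mul_succ] at this
  omega

theorem blk_div {m c r : ℕ} (hr : r < 2 * m) : (2 * m * c + r) / (2 * m) = c := by
  rw [Nat.mul_add_div (by omega), Nat.div_eq_of_lt hr, add_zero]

theorem bit_lt {m : ℕ} (e : Fin m) (β : Bool) : 2 * (e : ℕ) + β.toNat < 2 * m := by
  have := e.2
  have := Bool.toNat_le β
  omega

theorem G_succ (m : ℕ) (σ : Bool) (k : ℕ) (v : List (Fin m) → Prop) :
    G m σ (k + 1) v = cond σ (∃ e, G m (!σ) k fun l => v (e :: l))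
      (∀ e, G m (!σ) k fun l => v (e :: l)) := by
  cases σ <;> rfl

theorem inner {m t M : ℕ} (hM : 2 * m * t < M) : ∀ (k : ℕ) (σ : Bool) (z : List ℕ),
    z.length = k + 1 → (∀ c ∈ z, c < t) → ∀ ξ : List (Fin m) → Bool, ∃ p : List ℕ → Prop,
    ∀ q, Kil M (pol σ k) k q → (Alt σ (List.replicate (k + 1) M) p q ↔
      G m σ (k + 1) fun l => q (enc m z l (ξ l)))
  | _, _, [], h, _, _ => by simp at h
  | 0, _, _ :: _ :: _, h, _, _ => by simp at h
  | _ + 1, _, [_], h, _, _ => by simp at h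
  | 0, σ, [c], _, hz, ξ => by
    obtain ⟨p, hp⟩ := node (E := Fin m) M σ []
      (fun e => 2 * m * c + (2 * e + (ξ [e]).toNat)) (fun e e' h => Fin.ext (by
        have := Bool.toNat_le (ξ [e])
        have := Bool.toNat_le (ξ [e'])
        simp only at h
        omega))
      (fun e => blk_lt hM (hz c (by simp)) (bit_lt e _)) (fun _ _ => σ = true)
      (fun _ => σ = false)
    refine ⟨p, fun q _ => ?_⟩
    rw [G_succ]
    refine hp q _ (fun e => ?_) fun i _ => neutral σ _
    cases σ <;> simp [Alt, G, enc]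
  | k + 1, σ, c :: c' :: z, h, hz, ξ => by
    have hM0 : 0 < M := by omega
    choose pe hpe using fun e : Fin m => inner hM k (!σ) (c' :: z) (by simpa using h)
      (fun x hx => hz x (List.mem_cons_of_mem _ hx)) fun l => ξ (e :: l)
    obtain ⟨pk, hpk⟩ := kill hM0 (!σ) k (!σ)
    have hlt : ∀ e : Fin m, 2 * m * c + e < M := fun e =>
      blk_lt hM (hz c (by simp)) (by have := e.2; omega)
    obtain ⟨p, hp⟩ := node (E := Fin m) M σ (List.replicate (k + 1) M)
      (fun e => 2 * m * c + e) (fun e e' h => Fin.ext (by simp only at h; omega)) hlt pe pk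
    refine ⟨p, fun q hq => ?_⟩
    rw [G_succ]
    exact hp q _ (fun e => hpe e _ (Kil.cons hq (hlt e))) fun i hi => hpk _ (Kil.cons hq hi)

theorem outer {m t M : ℕ} (hM : 2 * m * t < M) (k : ℕ) (z : List ℕ) (hz : z.length = k + 1)
    (hzt : ∀ c ∈ z, c < t) (ξ : List (Fin m) → Bool) : ∀ (pre : List ℕ) (σ : Bool),
    (∀ c ∈ pre, c < M) → ∃ p : List ℕ → Prop,
    ∀ q, Kil M (pol σ (k + pre.length)) (k + pre.length) q →
      (Alt σ (List.replicate (k + pre.length + 1) M) p q ↔
        G m (pol σ pre.length) (k + 1) fun l => q (pre ++ enc m z l (ξ l)))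
  | [], σ, _ => inner hM k σ z hz hzt ξ
  | c :: pre, σ, h => by
    have hM0 : 0 < M := by omega
    obtain ⟨pe, hpe⟩ := outer hM k z hz hzt ξ pre (!σ) fun x hx => h x (List.mem_cons_of_mem _ hx)
    obtain ⟨pk, hpk⟩ := kill hM0 (!σ) (k + pre.length) (!σ)
    have hc : c < M := h c (by simp)
    obtain ⟨p, hp⟩ := node (E := Unit) M σ (List.replicate (k + pre.length + 1) M)
      (fun _ => c) (fun _ _ _ => rfl) (fun _ => hc) (fun _ => pe) pk
    refine ⟨p, fun q hq => ?_⟩
    refine (hp q _ (fun _ => hpe _ (Kil.cons hq hc)) fun i hi => hpk _ (Kil.cons hq hi)).trans ?_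
    cases σ <;> simp [pol]

theorem enc_spec {m t M : ℕ} (hM : 2 * m * t < M) (β : Bool) : ∀ (z : List ℕ) (l : List (Fin m)),
    z ≠ [] → l.length = z.length → (∀ c ∈ z, c < t) →
    (∀ e ∈ enc m z l β, e < M) ∧ (enc m z l β).map (· / (2 * m)) = z
  | [], _, h, _, _ => (h rfl).elim
  | _ :: _, [], _, h, _ => by simp at h
  | [_], _ :: _ :: _, _, h, _ => by simp at h
  | [c], [e], _, _, hz => by
    refine ⟨?_, ?_⟩
    · simpa [enc] using blk_lt hM (hz c (by simp)) (bit_lt e β)
    · simp [enc, blk_div (bit_lt e β)]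
  | c :: c' :: z, e :: l, _, h, hz => by
    obtain ⟨h1, h2⟩ := enc_spec hM β (c' :: z) l (by simp) (by simpa using h)
      fun x hx => hz x (List.mem_cons_of_mem _ hx)
    have he : (e : ℕ) < 2 * m := by have := e.2; omega
    refine ⟨List.forall_mem_cons.2 ⟨blk_lt hM (hz c (by simp)) he, h1⟩, ?_⟩
    show (2 * m * c + e) / (2 * m) :: _ = _
    rw [blk_div he, h2]

theorem enc_inj {m : ℕ} (β β' : Bool) : ∀ (z : List ℕ) (l l' : List (Fin m)),
    z ≠ [] → l.length = z.length → l'.length = z.length → enc m z l β = enc m z l' β' →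
    (l, β) = (l', β')
  | [], _, _, h, _, _, _ => (h rfl).elim
  | _ :: _, [], _, _, h, _, _ => by simp at h
  | _ :: _, _ :: _, [], _, _, h, _ => by simp at h
  | [_], _ :: _ :: _, _ :: _, _, h, _, _ => by simp at h
  | [_], [_], _ :: _ :: _, _, _, h, _ => by simp at h
  | [c], [e], [e'], _, _, _, h => by
    simp only [enc, List.cons.injEq, and_true] at h
    have h1 := Bool.toNat_le β
    have h2 := Bool.toNat_le β'
    have h3 : e = e' := Fin.ext (by omega)
    subst h3
    cases β <;> cases β' <;> simp_all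
  | c :: c' :: z, e :: l, e' :: l', _, h1, h2, h => by
    simp only [enc, List.cons.injEq] at h
    have h3 : e = e' := Fin.ext (by omega)
    have h4 := enc_inj β β' (c' :: z) l l' (by simp) (by simpa using h1) (by simpa using h2) h.2
    simp only [Prod.mk.injEq] at h4 ⊢
    rw [h3, h4.1]
    exact ⟨rfl, h4.2⟩

end Pool.Agent.MP_a2d820_lc.h31
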