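import Pool.Agent.MP_a2d820_lc.h31.Embed

/-! Small decrease is without loss of generality for functions monotone in the second input. -/

set_option autoImplicit false

namespace Pool.Agent.MP_a2d820_lc.h31

open Finset

theorem Alt_mono : ∀ (d : List ℕ) (b : Bool) (p q q' : List ℕ → Prop), (∀ u, q u → q' u) →
    Alt b d p q → Alt b d p q'
  | [], true, _, _, _, h => Or.imp id (h [])
  | [], false, _, _, _, h => And.imp id (h [])
  | _ :: d, true, _, _, _, h => fun ⟨i, hi, h'⟩ =>
      ⟨i, hi, Alt_mono d false _ _ _ (fun u => h (i :: u)) h'⟩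
  | _ :: d, false, _, _, _, h => fun h' i hi =>
      Alt_mono d true _ _ _ (fun u => h (i :: u)) (h' i hi)

/-- one more value in the last block does not change the function -/
theorem nf_eq (a : ℕ) : ∀ (d : List ℕ) (b : Bool) (p q p' q' : List ℕ → Prop),
    (∀ u i, i < a → (p' (u ++ [i]) ↔ p (u ++ [i])) ∧ (q' (u ++ [i]) ↔ q (u ++ [i]))) →
    (∀ u, Tr (!pol b d.length) (q' (u ++ [a]))) →
    (Alt b (d ++ [a + 1]) p' q' ↔ Alt b (d ++ [a]) p q)
  | [], true, p, q, p', q', h, h' => by
    have h1 : ¬ q' [a] := Tr_false.1 (h' [])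
    constructor
    · rintro ⟨i, hi, h2, h3⟩
      have hia : i < a := by
        rcases Nat.lt_succ_iff_lt_or_eq.1 hi with h4 | rfl
        · exact h4
        · exact (h1 h3).elim
      exact ⟨i, hia, (h [] i hia).1.1 h2, (h [] i hia).2.1 h3⟩
    · rintro ⟨i, hi, h2, h3⟩
      exact ⟨i, by omega, (h [] i hi).1.2 h2, (h [] i hi).2.2 h3⟩
  | [], false, p, q, p', q', h, h' => by
    have h1 : q' [a] := Tr_true.1 (h' [])
    constructor
    · intro h2 i hi
      exact (h2 i (by omega)).imp (h [] i hi).1.1 (h [] i hi).2.1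
    · intro h2 i hi
      rcases Nat.lt_succ_iff_lt_or_eq.1 hi with h4 | rfl
      · exact (h2 i h4).imp (h [] i h4).1.2 (h [] i h4).2.2
      · exact Or.inr h1
  | _ :: d, true, _, _, _, _, h, h' => exists_congr fun i => and_congr_right fun _ =>
      nf_eq a d false _ _ _ _ (fun u => h (i :: u)) fun u => h' (i :: u)
  | _ :: d, false, _, _, _, _, h, h' => forall_congr' fun i => forall_congr' fun _ =>
      nf_eq a d true _ _ _ _ (fun u => h (i :: u)) fun u => h' (i :: u)

/-- with the extra value, constant predicates of the second player decide the function -/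
theorem nf_const (a : ℕ) (β : Bool) : ∀ (d : List ℕ) (b : Bool) (p : List ℕ → Prop),
    (∀ e ∈ d, 0 < e) → (∀ u, Tr (pol b d.length) (p (u ++ [a]))) →
    Tr β (Alt b (d ++ [a + 1]) p fun _ => β = true)
  | [], true, p, _, h => ⟨fun ⟨_, _, _, h1⟩ => h1,
      fun h1 => ⟨a, Nat.lt_succ_self a, Tr_true.1 (h []), h1⟩⟩
  | [], false, p, _, h => ⟨fun h1 => (h1 a (Nat.lt_succ_self a)).resolve_left (Tr_false.1 (h [])),
      fun h1 _ _ => Or.inr h1⟩
  | e :: d, b, p, hd, h => by
    have h1 := fun i => nf_const a β d (!b) (fun u => p (i :: u))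
      (fun x hx => hd x (List.mem_cons_of_mem _ hx)) fun u => h (i :: u)
    have he := hd e List.mem_cons_self
    cases b
    · exact ⟨fun h => (h1 0).1 (h 0 he), fun h i _ => (h1 i).2 h⟩
    · exact ⟨fun ⟨i, _, h⟩ => (h1 i).1 h, fun h => ⟨0, he, (h1 0).2 h⟩⟩

theorem normal {X Y : Type} (b : Bool) (d : List ℕ) (hd : d ≠ []) (hpos : ∀ e ∈ d, 0 < e)
    (φ : List ℕ → X → Prop) (ψ : List ℕ → Y → Prop) :
    ∃ (d' : List ℕ) (φ' : List ℕ → X → Prop) (ψ' : List ℕ → Y → Prop), d'.length = d.length ∧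
      (∀ e ∈ d', 0 < e) ∧ d'.prod ≤ 2 * d.prod ∧
      (∀ x y, Alt b d' (fun u => φ' u x) (fun u => ψ' u y) ↔
        Alt b d (fun u => φ u x) (fun u => ψ u y)) ∧
      ∀ x (β : Bool), Tr β (Alt b d' (fun u => φ' u x) fun _ => β = true) := by
  classical
  obtain ⟨d0, a, rfl⟩ : ∃ d0 a, d = d0 ++ [a] := ⟨_, _, (List.dropLast_append_getLast hd).symm⟩
  have ha : 0 < a := hpos a (by simp)
  have h0 : ∀ e ∈ d0, 0 < e := fun e he => hpos e (by simp [he])
  refine ⟨d0 ++ [a + 1],
    fun u x => if u.getLast? = some a then pol b d0.length = true else φ u x,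
    fun u y => if u.getLast? = some a then (!pol b d0.length) = true else ψ u y, by simp, ?_, ?_,
    fun x y => nf_eq a d0 b _ _ _ _ ?_ ?_, fun x β => nf_const a β d0 b _ h0 ?_⟩
  · intro e he
    rcases List.mem_append.1 he with h | h
    · exact h0 e h
    · rw [List.mem_singleton.1 h]; omega
  · simp only [List.prod_append, List.prod_cons, List.prod_nil, mul_one]
    nlinarith [Nat.mul_le_mul_left d0.prod ha]
  · intro u i hi
    simp [hi.ne]
  · intro u
    simp [Tr]
  · intro u
    simp [Tr]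

theorem greedy {V : Type} [Finite V] (adj : V → V → Prop) (hs : ∀ v w, adj v w → adj w v)
    (hr : ∀ v, adj v v) (C : ℕ) (hC : ∀ v, {w | adj v w}.ncard ≤ C) :
    ∃ H : V → ℕ, (∀ v, H v < C) ∧ ∀ v w, adj v w → H v = H w → v = w := by
  classical
  have := Fintype.ofFinite V
  have hC0 : ∀ _v : V, 0 < C := fun v =>
    lt_of_lt_of_le ((Set.ncard_pos (Set.toFinite _)).2 ⟨v, hr v⟩) (hC v)
  have key : ∀ S : Finset V, ∃ H : V → ℕ, (∀ v, H v < C) ∧
      ∀ v ∈ S, ∀ w ∈ S, adj v w → H v = H w → v = w := by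
    intro S
    induction S using Finset.induction_on with
    | empty => exact ⟨fun _ => 0, hC0, by simp⟩
    | insert v S _ ih =>
      obtain ⟨H, h1, h2⟩ := ih
      have h3 : (((univ.filter (adj v)).erase v).image H).card < (range C).card := by
        rw [card_range]
        refine lt_of_le_of_lt card_image_le
          (lt_of_lt_of_le (card_erase_lt_of_mem (mem_filter.2 ⟨mem_univ _, hr v⟩)) ?_)
        have := hC v
        rw [Set.ncard_eq_toFinset_card'] at this
        simpa using this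
      obtain ⟨c, hc, hc'⟩ := exists_mem_notMem_of_card_lt_card h3
      have h4 : ∀ w, w ≠ v → adj v w → H w ≠ c := fun w hw ha h =>
        hc' (mem_image.2 ⟨w, mem_erase.2 ⟨hw, mem_filter.2 ⟨mem_univ _, ha⟩⟩, h⟩)
      refine ⟨fun w => if w = v then c else H w, fun w => ?_, ?_⟩
      · dsimp only
        split_ifs
        · exact mem_range.1 hc
        · exact h1 w
      · intro x hx y hy ha h
        dsimp only at h
        by_cases e1 : x = v <;> by_cases e2 : y = v
        · rw [e1, e2]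
        · rw [if_pos e1, if_neg e2] at h
          exact (h4 y e2 (e1 ▸ ha) h.symm).elim
        · rw [if_neg e1, if_pos e2] at h
          exact (h4 x e1 (hs _ _ (e2 ▸ ha)) h).elim
        · rw [if_neg e1, if_neg e2] at h
          exact h2 x ((mem_insert.1 hx).resolve_left e1) y ((mem_insert.1 hy).resolve_left e2) ha h
  obtain ⟨H, h1, h2⟩ := key univ
  exact ⟨H, h1, fun v w => h2 v (mem_univ _) w (mem_univ _)⟩

theorem small_sets {ι : Type} [Finite ι] (h : ℕ) :
    {y : Set ι | y.ncard ≤ h}.ncard ≤ (Nat.card ι + 1) ^ h := by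
  induction h with
  | zero =>
    have : {y : Set ι | y.ncard ≤ 0} = {∅} := by
      ext y
      simp [Set.ncard_eq_zero (Set.toFinite y)]
    rw [this]
    simp
  | succ h ih =>
    have h1 : {y : Set ι | y.ncard ≤ h + 1} ⊆
        (fun z : Option ι × Set ι => z.2 ∪ {i | z.1 = some i}) ''
          (Set.univ ×ˢ {y : Set ι | y.ncard ≤ h}) := by
      intro y hy
      rcases Set.eq_empty_or_nonempty y with rfl | ⟨i, hi⟩
      · exact ⟨(none, ∅), ⟨trivial, by simp⟩, by simp⟩
      · refine ⟨(some i, y \ {i}), ⟨trivial, ?_⟩, ?_⟩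
        · have h2 := Set.ncard_sdiff_singleton_add_one hi (Set.toFinite y)
          have h3 : y.ncard ≤ h + 1 := hy
          show (y \ {i}).ncard ≤ h
          omega
        · ext x
          by_cases hx : x = i
          · simp [hx, hi]
          · simp [hx]
    refine (Set.ncard_le_ncard h1 (Set.toFinite _)).trans
      ((Set.ncard_image_le (Set.toFinite _)).trans ?_)
    rw [Set.ncard_prod, Set.ncard_univ, Finite.card_option, pow_succ']
    exact Nat.mul_le_mul_left _ ih

theorem colouring {ι : Type} [Finite ι] (h : ℕ) : ∃ H : Set ι → ℕ,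
    (∀ y, H y < (Nat.card ι + 1) ^ h) ∧
    ∀ y y', (symmDiff y y').ncard ≤ h → H y = H y' → y = y' := by
  refine greedy (fun y y' : Set ι => (symmDiff y y').ncard ≤ h)
    (fun v w h => by rwa [symmDiff_comm])
    (fun v => by simp) _ fun v => ?_
  refine le_trans ?_ (small_sets h)
  exact Set.ncard_le_ncard_of_injOn (fun w => symmDiff v w) (fun w hw => hw)
    ((symmDiff_right_injective v).injOn) (Set.toFinite _)

theorem window {ι : Type} [Finite ι] {g : ℕ} (hg : 0 < g) {y y' : Set ι} (h : y ⊆ y')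
    (hw : y.ncard / g = y'.ncard / g) : (y' \ y).ncard ≤ g := by
  rw [Set.ncard_sdiff h (Set.toFinite y)]
  have h1 := Nat.mul_div_le y.ncard g
  have h2 := Nat.lt_mul_div_succ y'.ncard hg
  rw [← hw, Nat.mul_succ] at h2
  omega

theorem dec_window {ι : Type} [Finite ι] {g : ℕ} (ψ : List ℕ → Set ι → Prop)
    (h : ∀ u y y', y ⊆ y' → y.ncard / g = y'.ncard / g → ψ u y → ψ u y') :
    Dec ψ (Nat.card ι / g) := by
  intro c hc
  have hm : Monotone fun i => (c i).ncard / g := fun i j hij =>
    Nat.div_le_div_right (Set.ncard_le_ncard (hc hij) (Set.toFinite _))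
  have hlt : ∀ i ∈ {i | ∃ u, ψ u (c i) ∧ ¬ ψ u (c (i + 1))},
      (c i).ncard / g < (c (i + 1)).ncard / g := by
    rintro i ⟨u, h1, h2⟩
    exact lt_of_le_of_ne (hm (Nat.le_succ i)) fun e => h2 (h u _ _ (hc (Nat.le_succ i)) e h1)
  have h1 := Set.encard_le_encard_of_injOn (t := (range (Nat.card ι / g) : Set ℕ))
    (f := fun i => (c i).ncard / g) (s := {i | ∃ u, ψ u (c i) ∧ ¬ ψ u (c (i + 1))})
    (fun i hi => by
      rw [coe_range]
      exact lt_of_lt_of_le (hlt i hi) (Nat.div_le_div_right (Set.ncard_le_card _)))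
    (fun i hi j hj e => by
      rcases lt_trichotomy i j with h2 | h2 | h2
      · exact absurd e (lt_of_lt_of_le (hlt i hi) (hm (Nat.succ_le_of_lt h2))).ne
      · exact h2
      · exact absurd e (lt_of_lt_of_le (hlt j hj) (hm (Nat.succ_le_of_lt h2))).ne')
  rwa [Set.encard_coe_eq_coe_finsetCard, card_range] at h1

theorem upper {X ι : Type} [Finite ι] (f : X → Set ι → Prop)
    (hf : ∀ x y y', y ⊆ y' → f x y → f x y') {b : Bool} {j s a g : ℕ} (hj : 0 < j) (hg : 0 < g)
    (h : Rep b j f s a) : Rep b j f (2 * s * (Nat.card ι + 1) ^ (2 * g)) (Nat.card ι / g) := by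
  obtain ⟨d, φ, ψ, hd, hpos, hs, -, hrep⟩ := h
  obtain ⟨d', φ', ψ', l1, l2, l3, l4, l5⟩ := normal b d
    (by rintro rfl; simp at hd; omega) hpos φ ψ
  obtain ⟨H, H1, H2⟩ := colouring (ι := ι) (2 * g)
  set C := (Nat.card ι + 1) ^ (2 * g) with hC
  have hC0 : 0 < C := by positivity
  have hrep' : ∀ x y, f x y ↔ Alt b d' (fun u => φ' u x) (fun u => ψ' u y) := fun x y =>
    (hrep x y).trans (l4 x y).symm
  cases d' with
  | nil => simp at l1; omega
  | cons e d' =>
  have he : 0 < e := l2 e List.mem_cons_self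
  have hlen : (C * e :: d').length = j := by rw [← hd, ← l1]; rfl
  have hpos' : ∀ x ∈ C * e :: d', 0 < x := List.forall_mem_cons.2
    ⟨Nat.mul_pos hC0 he, fun x hx => l2 x (List.mem_cons_of_mem _ hx)⟩
  have hprod : (C * e :: d').prod ≤ 2 * s * C := by
    rw [List.prod_cons] at l3 ⊢
    rw [mul_assoc, mul_comm (2 * s)]
    exact Nat.mul_le_mul_left _ (l3.trans (Nat.mul_le_mul_left _ hs))
  have hlt : ∀ y i, i < e → H y * e + i < C * e := fun y i hi => by
    have := Nat.mul_le_mul_right e (Nat.succ_le_of_lt (H1 y))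
    rw [Nat.succ_mul] at this
    omega
  have hdiv : ∀ y i, i < e → (H y * e + i) / e = H y := fun y i hi => by
    rw [mul_comm, Nat.mul_add_div he, Nat.div_eq_of_lt hi, add_zero]
  have hmod : ∀ y i, i < e → (H y * e + i) % e = i := fun y i hi => by
    rw [mul_comm, Nat.mul_add_mod, Nat.mod_eq_of_lt hi]
  cases b
  · have uniq : ∀ y y1 y2 : Set ι, y ⊆ y1 → y.ncard / g = y1.ncard / g → y ⊆ y2 →
        y.ncard / g = y2.ncard / g → H y1 = H y2 → y1 = y2 := by
      intro y y1 y2 a1 a2 a3 a4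
      refine H2 y1 y2 ?_
      have b1 := window hg a1 a2
      have b2 := window hg a3 a4
      have b3 := Set.ncard_le_ncard (Set.sdiff_subset_sdiff_right (s := y1) a3) (Set.toFinite _)
      have b4 := Set.ncard_le_ncard (Set.sdiff_subset_sdiff_right (s := y2) a1) (Set.toFinite _)
      have b5 := Set.ncard_union_le (y1 \ y2) (y2 \ y1)
      rw [Set.symmDiff_def]
      omega
    refine ⟨C * e :: d', fun u x => φ' (u.headI % e :: u.tail) x,
      fun u y => ∀ y', y ⊆ y' → y.ncard / g = y'.ncard / g → H y' = u.headI / e →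
        ψ' (u.headI % e :: u.tail) y', hlen, hpos', hprod, dec_window _ ?_, fun x y => ?_⟩
    · intro u y y1 a1 a2 a3 y' a4 a5
      exact a3 y' (a1.trans a4) (a2.trans a5)
    · constructor
      · intro hxy i _
        by_cases hl : ∃ y1, y ⊆ y1 ∧ y.ncard / g = y1.ncard / g ∧ H y1 = i / e
        · obtain ⟨y1, a1, a2, a3⟩ := hl
          refine Alt_mono _ _ _ _ _ ?_
            ((hrep' x y1).1 (hf x y y1 a1 hxy) (i % e) (Nat.mod_lt _ he))
          intro u hu y2 a4 a5 a6
          rw [uniq y y2 y1 a4 a5 a1 a2 (a6.trans a3.symm)]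
          exact hu
        · refine Alt_mono _ _ _ _ _ ?_ ((l5 x true).2 rfl (i % e) (Nat.mod_lt _ he))
          intro u _ y2 a4 a5 a6
          exact (hl ⟨y2, a4, a5, a6⟩).elim
      · intro h
        refine (hrep' x y).2 fun i hi => ?_
        have h1 := h _ (hlt y i hi)
        simp only [List.headI_cons, List.tail_cons, hdiv y i hi, hmod y i hi] at h1
        exact Alt_mono _ _ _ _ _ (fun u hu => hu y subset_rfl rfl rfl) h1
  · have uniq : ∀ y y1 y2 : Set ι, y1 ⊆ y → y1.ncard / g = y.ncard / g → y2 ⊆ y →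
        y2.ncard / g = y.ncard / g → H y1 = H y2 → y1 = y2 := by
      intro y y1 y2 a1 a2 a3 a4
      refine H2 y1 y2 ?_
      have b1 := window hg a1 a2
      have b2 := window hg a3 a4
      have b3 := Set.ncard_le_ncard (Set.sdiff_subset_sdiff_left (t := y2) a1) (Set.toFinite _)
      have b4 := Set.ncard_le_ncard (Set.sdiff_subset_sdiff_left (t := y1) a3) (Set.toFinite _)
      have b5 := Set.ncard_union_le (y1 \ y2) (y2 \ y1)
      rw [Set.symmDiff_def]
      omega
    refine ⟨C * e :: d', fun u x => φ' (u.headI % e :: u.tail) x,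
      fun u y => ∃ y', y' ⊆ y ∧ y'.ncard / g = y.ncard / g ∧ H y' = u.headI / e ∧
        ψ' (u.headI % e :: u.tail) y', hlen, hpos', hprod, dec_window _ ?_, fun x y => ?_⟩
    · rintro u y y1 a1 a2 ⟨y', a3, a4, a5⟩
      exact ⟨y', a3.trans a1, a4.trans a2, a5⟩
    · constructor
      · intro hxy
        obtain ⟨i, hi, h1⟩ := (hrep' x y).1 hxy
        refine ⟨_, hlt y i hi, ?_⟩
        simp only [List.headI_cons, List.tail_cons, hdiv y i hi, hmod y i hi]
        exact Alt_mono _ _ _ _ _ (fun u hu => ⟨y, subset_rfl, rfl, rfl, hu⟩) h1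
      · rintro ⟨i, _, h1⟩
        by_cases hl : ∃ y1, y1 ⊆ y ∧ y1.ncard / g = y.ncard / g ∧ H y1 = i / e
        · obtain ⟨y1, a1, a2, a3⟩ := hl
          refine hf x y1 y a1 ((hrep' x y1).2 ⟨i % e, Nat.mod_lt _ he, Alt_mono _ _ _ _ _ ?_ h1⟩)
          rintro u ⟨y2, a4, a5, a6, a7⟩
          rw [uniq y y1 y2 a1 a2 a4 a5 (a3.trans a6.symm)]
          exact a7
        · refine absurd ((l5 x false).1 ⟨i % e, Nat.mod_lt _ he, Alt_mono _ _ _ _ _ ?_ h1⟩)
            (by simp)
          rintro u ⟨y2, a4, a5, a6, _⟩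
          exact (hl ⟨y2, a4, a5, a6⟩).elim

end Pool.Agent.MP_a2d820_lc.h31
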