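import Pool.Agent.MP_a2d820_lc.h31.Lower
import Pool.Agent.MP_a2d820_lc.h31.Upper

/-! Small facts about the function of Babai, Frankl and Simon. -/

set_option autoImplicit false

namespace Pool.Agent.MP_a2d820_lc.h31

theorem pol_eq : ∀ (l : ℕ) (b0 b : Bool), (b = b0 ↔ Odd l) → b = !(pol b0 l)
  | 0, b0, b, h => by
    cases b0 <;> cases b <;> simp_all [pol]
  | l + 1, b0, b, h => pol_eq l (!b0) b (by
      rw [Nat.odd_add_one] at h
      cases b0 <;> cases b <;> simp_all)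

theorem Mem_mono {K M : ℕ} {y y' : Set (Fin K → Fin M)} (h : y ⊆ y') (u : List ℕ) :
    Mem y u → Mem y' u := fun ⟨v, h1, h2⟩ => ⟨v, h h1, h2⟩

theorem BFS_mono (b : Bool) (K M : ℕ) (x y y' : Set (Fin K → Fin M)) (h : y ⊆ y') :
    BFS b K M x y → BFS b K M x y' := Alt_mono _ _ _ _ _ (Mem_mono h)

theorem BFS_rep (b : Bool) (K M : ℕ) (hM : 0 < M) : Rep b K (BFS b K M) (M ^ K) 0 := by
  refine ⟨List.replicate K M, fun u x => Mem x u, fun u y => Mem y u, List.length_replicate,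
    fun e he => by rw [List.eq_of_mem_replicate he]; exact hM, by simp, fun c hc => ?_,
    fun x y => Iff.rfl⟩
  have : {i | ∃ u, Mem (c i) u ∧ ¬ Mem (c (i + 1)) u} = ∅ := by
    ext i
    exact ⟨fun ⟨u, h1, h2⟩ => h2 (Mem_mono (hc (Nat.le_succ i)) u h1), False.elim⟩
  rw [this]
  simp

end Pool.Agent.MP_a2d820_lc.h31
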