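import Pool.Agent.MP_a2d820_lc.h31.Count

/-! The round elimination game on the tree of fan-out `m`. -/

set_option autoImplicit false

namespace Pool.Agent.MP_a2d820_lc.h31

open Finset

/-- `A` has the truth value `s` -/
def Tr (s : Bool) (A : Prop) : Prop := A ↔ s = true

theorem Tr_true {A : Prop} : Tr true A ↔ A := by simp [Tr]

theorem Tr_false {A : Prop} : Tr false A ↔ ¬ A := by simp [Tr]

theorem Tr_own {σ : Bool} {a : ℕ} {d : List ℕ} {p q : List ℕ → Prop}
    (h : Tr σ (Alt σ (a :: d) p q)) :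
    ∃ i < a, Tr σ (Alt (!σ) d (fun u => p (i :: u)) (fun u => q (i :: u))) := by
  cases σ
  · rw [Tr_false] at h
    simp only [Alt, not_forall] at h
    obtain ⟨i, hi, h⟩ := h
    exact ⟨i, hi, Tr_false.2 h⟩
  · rw [Tr_true] at h
    obtain ⟨i, hi, h⟩ := h
    exact ⟨i, hi, Tr_true.2 h⟩

theorem Tr_other {σ : Bool} {a : ℕ} {d : List ℕ} {p q : List ℕ → Prop}
    (h : Tr σ (Alt (!σ) (a :: d) p q)) {i : ℕ} (hi : i < a) :
    Tr σ (Alt σ d (fun u => p (i :: u)) (fun u => q (i :: u))) := by
  cases σ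
  · rw [Tr_false] at h ⊢
    exact fun h' => h ⟨i, hi, h'⟩
  · rw [Tr_true] at h ⊢
    exact h i hi

theorem Tr_nil {σ b : Bool} {p q q' : List ℕ → Prop} (h : Tr σ (Alt b [] p q))
    (h' : Tr (!σ) (Alt b [] p q')) : Tr σ (q []) ∧ Tr (!σ) (q' []) := by
  cases σ <;> cases b <;> simp only [Alt, Bool.not_true, Bool.not_false, Tr_true, Tr_false] at * <;>
    tauto

/-- reduced strategies in the tree of depth `k`, for the owner of the root (`true`) and for
the other player (`false`) -/
def St (m : ℕ) : ℕ → Bool → Type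
  | 0, _ => Unit
  | k + 1, true => Fin m × St m k false
  | k + 1, false => Fin m → St m k true

theorem St_finite (m : ℕ) : ∀ (k : ℕ) (b : Bool), Finite (St m k b)
  | 0, _ => inferInstanceAs (Finite Unit)
  | k + 1, true =>
    haveI := St_finite m k false
    inferInstanceAs (Finite (Fin m × St m k false))
  | k + 1, false =>
    haveI := St_finite m k true
    inferInstanceAs (Finite (Fin m → St m k true))

theorem St_nonempty {m : ℕ} (hm : 0 < m) : ∀ (k : ℕ) (b : Bool), Nonempty (St m k b)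
  | 0, _ => inferInstanceAs (Nonempty Unit)
  | k + 1, true =>
    haveI := St_nonempty hm k false
    haveI : Nonempty (Fin m) := ⟨⟨0, hm⟩⟩
    inferInstanceAs (Nonempty (Fin m × St m k false))
  | k + 1, false =>
    haveI := St_nonempty hm k true
    inferInstanceAs (Nonempty (Fin m → St m k true))

theorem card_St_true (m k : ℕ) : Nat.card (St m (k + 1) true) = m * Nat.card (St m k false) := by
  show Nat.card (Fin m × St m k false) = _
  rw [Nat.card_prod, Nat.card_fin]

theorem card_St_false (m k : ℕ) : Nat.card (St m (k + 1) false) = Nat.card (St m k true) ^ m := by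
  show Nat.card (Fin m → St m k true) = _
  rw [Nat.card_fun, Nat.card_fin]

/-- the leaf reached by two strategies -/
def meet (m : ℕ) : (k : ℕ) → St m k true → St m k false → List (Fin m)
  | 0, _, _ => []
  | k + 1, α, β => α.1 :: meet m k (β α.1) α.2

/-- the leaves compatible with a strategy -/
def In (m : ℕ) : (k : ℕ) → (b : Bool) → St m k b → List (Fin m) → Prop
  | 0, _, _, l => l = []
  | _ + 1, _, _, [] => False
  | k + 1, true, α, i :: l => i = α.1 ∧ In m k false α.2 l
  | k + 1, false, β, i :: l => In m k true (β i) l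

theorem In_meet (m : ℕ) : ∀ (k : ℕ) (α : St m k true) (β : St m k false) (l : List (Fin m)),
    In m k true α l → In m k false β l → l = meet m k α β
  | 0, _, _, _, h, _ => h
  | _ + 1, _, _, [], h, _ => h.elim
  | k + 1, α, β, i :: l, h, h' => by
    obtain ⟨h1, h2⟩ := h
    subst h1
    have := In_meet m k (β α.1) α.2 l h' h2
    rw [this]
    rfl

theorem length_meet (m : ℕ) : ∀ (k : ℕ) (α : St m k true) (β : St m k false),
    (meet m k α β).length = k
  | 0, _, _ => rfl
  | k + 1, α, β => by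
    show (meet m k (β α.1) α.2).length + 1 = k + 1
    rw [length_meet m k]

/-- the value of the game tree -/
def G (m : ℕ) : Bool → ℕ → (List (Fin m) → Prop) → Prop
  | _, 0, v => v []
  | true, k + 1, v => ∃ i, G m false k fun l => v (i :: l)
  | false, k + 1, v => ∀ i, G m true k fun l => v (i :: l)

theorem G_value (m : ℕ) : ∀ (k : ℕ) (σ : Bool) (v : List (Fin m) → Prop),
    (∀ α : St m k true, (∀ l, In m k true α l → Tr σ (v l)) → Tr σ (G m σ k v)) ∧
    (∀ β : St m k false, (∀ l, In m k false β l → Tr σ (v l)) → Tr σ (G m (!σ) k v))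
  | 0, σ, v => ⟨fun _ h => by cases σ <;> exact h [] rfl, fun _ h => by cases σ <;> exact h [] rfl⟩
  | k + 1, σ, v => by
    constructor
    · intro α h
      have h1 := (G_value m k σ fun l => v (α.1 :: l)).2 α.2 fun l hl => h (α.1 :: l) ⟨rfl, hl⟩
      cases σ
      · rw [Tr_false] at h1 ⊢
        exact fun h2 => h1 (h2 α.1)
      · rw [Tr_true] at h1 ⊢
        exact ⟨α.1, h1⟩
    · intro β h
      have h1 := fun i => (G_value m k σ fun l => v (i :: l)).1 (β i) fun l hl => h (i :: l) hl
      cases σ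
      · rw [Tr_false]
        rintro ⟨i, hi⟩
        exact Tr_false.1 (h1 i) hi
      · rw [Tr_true]
        exact fun i => Tr_true.1 (h1 i)

theorem G_congr (m : ℕ) : ∀ (k : ℕ) (σ : Bool) (v v' : List (Fin m) → Prop),
    (∀ l, l.length = k → (v l ↔ v' l)) → (G m σ k v ↔ G m σ k v')
  | 0, σ, v, v', h => by cases σ <;> exact h [] rfl
  | k + 1, true, v, v', h => exists_congr fun i =>
      G_congr m k false _ _ fun l hl => h (i :: l) (by simp [hl])
  | k + 1, false, v, v', h => forall_congr' fun i =>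
      G_congr m k true _ _ fun l hl => h (i :: l) (by simp [hl])

/-- no protocol with blocks `d` and first quantifier `b` localises the meet of the strategies -/
def Win (m w c : ℕ) (σ b : Bool) (d : List ℕ) (k : ℕ) : Prop :=
  ∀ (p : List ℕ → Prop) (O : Finset (St m (k + 1) true)) (R : Finset (St m (k + 1) false))
    (qO : St m (k + 1) true → List ℕ → Prop) (qR : St m (k + 1) false → List ℕ → Prop)
    (TO : St m (k + 1) true → List ℕ → Finset (List (Fin m)))
    (TR : St m (k + 1) false → List ℕ → Finset (List (Fin m))),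
    3 * Nat.card (St m (k + 1) true) ≤ 4 * O.card → Nat.card (St m (k + 1) false) ≤ c * R.card →
    (∀ α ∈ O, Tr σ (Alt b d p (qO α))) → (∀ β ∈ R, Tr (!σ) (Alt b d p (qR β))) →
    (∀ α u, (TO α u).card ≤ w) → (∀ β u, (TR β u).card ≤ w) →
    (∀ α ∈ O, ∀ β ∈ R, ∀ u ∈ Bx d, Tr σ (qO α u) → Tr (!σ) (qR β u) →
      meet m (k + 1) α β ∈ TO α u ∧ meet m (k + 1) α β ∈ TR β u) → False

theorem win_nil {m w : ℕ} (hw : 4 * w < 3 * m) (c : ℕ) (σ b : Bool) (k : ℕ) :
    Win m w c σ b [] k := by
  classical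
  intro p O R qO qR TO TR hO hR tO tR _ cR cr
  have hm : 0 < m := by omega
  have := St_finite m (k + 1) false
  have := St_nonempty hm (k + 1) false
  have := St_finite m k false
  have := St_nonempty hm k false
  have h0 : 0 < Nat.card (St m (k + 1) false) := Nat.card_pos
  have hRne : R.Nonempty := by
    rw [← card_pos]
    rcases Nat.eq_zero_or_pos R.card with h | h
    · rw [h] at hR; omega
    · exact h
  obtain ⟨β, hβ⟩ := hRne
  rw [card_St_true] at hO
  have h1 := heads (A := St m k false) O hO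
  have h2 : (image (Prod.fst : Fin m × St m k false → Fin m) O).image some ⊆
      (TR β []).image List.head? := by
    intro o ho
    obtain ⟨i, hi, rfl⟩ := mem_image.1 ho
    obtain ⟨α, hα, rfl⟩ := mem_image.1 hi
    obtain ⟨t1, t2⟩ := Tr_nil (tO α hα) (tR β hβ)
    exact mem_image.2 ⟨_, (cr α hα β hβ [] (by simp [Bx]) t1 t2).2, rfl⟩
  have h3 := card_le_card h2
  rw [card_image_of_injective _ (Option.some_injective _)] at h3
  have h4 := (h3.trans card_image_le).trans (cR β [])
  have h5 : 3 * m ≤ 4 * w := h1.trans (Nat.mul_le_mul_left _ (by convert h4))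
  omega

theorem win_speak {m w s a : ℕ} {σ : Bool} {d : List ℕ} {k : ℕ} (ha : 0 < a) (has : a ≤ s)
    (h : Win m w (4 * s) σ σ d k) : Win m w 4 σ (!σ) (a :: d) k := by
  classical
  intro p O R qO qR TO TR hO hR tO tR cO cR cr
  obtain ⟨i, hi, hc⟩ := speech R a ha
    (fun i β => Tr (!σ) (Alt σ d (fun u => p (i :: u)) (fun u => qR β (i :: u))))
    (fun β hβ => by simpa only [Bool.not_not] using Tr_own (tR β hβ))
  refine h (fun u => p (i :: u)) O _ (fun α u => qO α (i :: u)) (fun β u => qR β (i :: u))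
    (fun α u => TO α (i :: u)) (fun β u => TR β (i :: u)) hO
    (hR.trans ((Nat.mul_le_mul_left 4 (hc.trans (Nat.mul_le_mul_right _ has))).trans_eq
      (mul_assoc _ _ _).symm))
    (fun α hα => Tr_other (tO α hα) hi) (fun β hβ => (mem_filter.1 hβ).2)
    (fun α u => cO α _) (fun β u => cR β _) ?_
  intro α hα β hβ u hu t1 t2
  exact cr α hα β (mem_filter.1 hβ).1 (i :: u) (cons_mem_Bx hi hu) t1 t2

theorem win_descend {m w c : ℕ} (hm0 : 0 < m) (hm : ¬ 2 ^ m ≤ c ^ 4) {σ : Bool} {d : List ℕ}
    {k : ℕ} (h : Win m w 4 (!σ) σ d k) : Win m w c σ σ d (k + 1) := by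
  classical
  intro p O R qO qR TO TR hO hR tO tR cO cR cr
  have := St_finite m (k + 1) false
  have := St_nonempty hm0 (k + 1) false
  have := St_finite m (k + 1) true
  have := St_nonempty hm0 (k + 1) true
  rw [card_St_true] at hO
  rw [card_St_false] at hR
  obtain ⟨i, h1, h2⟩ := descend_aux (A := St m (k + 1) false) (B := St m (k + 1) true) O R hm hO hR
  have hex : ∀ γ : St m (k + 1) true, ∃ β : St m (k + 1 + 1) false,
      (∃ β' ∈ R, β' i = γ) → β ∈ R ∧ β i = γ := by
    intro γ
    by_cases hγ : ∃ β' ∈ R, β' i = γ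
    · obtain ⟨β', h3, h4⟩ := hγ
      exact ⟨β', fun _ => ⟨h3, h4⟩⟩
    · exact ⟨fun _ => γ, fun h => (hγ h).elim⟩
  choose ext hext using hex
  refine h p _ (fib (A := St m (k + 1) false) O i) (fun γ => qR (ext γ)) (fun α => qO (i, α))
    (fun γ u => (TR (ext γ) u).image List.tail) (fun α u => (TO (i, α) u).image List.tail)
    h2 h1 ?_ ?_ (fun γ u => card_image_le.trans (cR _ _)) (fun α u => card_image_le.trans (cO _ _))
    ?_
  · intro γ hγ
    exact tR _ (hext γ (mem_image.1 hγ)).1
  · intro α hα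
    rw [Bool.not_not]
    exact tO _ (mem_fib.1 hα)
  · intro γ hγ α hα u hu t1 t2
    obtain ⟨e1, e2⟩ := hext γ (mem_image.1 hγ)
    rw [Bool.not_not] at t2
    obtain ⟨m1, m2⟩ := cr (i, α) (mem_fib.1 hα) _ e1 u hu t2 t1
    have e3 : (meet m (k + 1 + 1) (i, α) (ext γ)).tail = meet m (k + 1) γ α := by
      show meet m (k + 1) (ext γ i) α = _
      rw [e2]
    exact ⟨mem_image.2 ⟨_, m2, e3⟩, mem_image.2 ⟨_, m1, e3⟩⟩

theorem win_all {m w s : ℕ} (hw : 4 * w < 3 * m) (hm : ¬ 2 ^ m ≤ (4 * s) ^ 4) :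
    ∀ (d : List ℕ) (k : ℕ) (σ : Bool), d.length ≤ k → (∀ e ∈ d, 0 < e ∧ e ≤ s) →
      Win m w (4 * s) σ σ d k
  | [], k, σ, _, _ => win_nil hw _ σ σ k
  | _ :: _, 0, _, h, _ => by simp at h
  | a :: d, k + 1, σ, h, he => by
    have h1 := win_all hw hm d k (!σ) (by simpa using h) fun e h => he e (List.mem_cons_of_mem _ h)
    have h2 := win_speak (he a List.mem_cons_self).1 (he a List.mem_cons_self).2 h1
    rw [Bool.not_not] at h2
    exact win_descend (by omega) hm h2

theorem win_mono {m w c c' : ℕ} (hc : c ≤ c') {σ b : Bool} {d : List ℕ} {k : ℕ}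
    (h : Win m w c' σ b d k) : Win m w c σ b d k :=
  fun p O R qO qR TO TR hO hR => h p O R qO qR TO TR hO (hR.trans (Nat.mul_le_mul_right _ hc))

theorem win_start {m w s : ℕ} (hw : 4 * w < 3 * m) (hm : ¬ 2 ^ m ≤ (4 * s) ^ 4) (hs : 0 < s)
    (d : List ℕ) (k : ℕ) (σ b : Bool) (hj : d.length ≤ k ∨ (d.length = k + 1 ∧ b = !σ))
    (he : ∀ e ∈ d, 0 < e ∧ e ≤ s) : Win m w 4 σ b d k := by
  cases d with
  | nil => exact win_nil hw _ σ b k
  | cons a d =>
    by_cases hb : b = !σ
    · subst hb
      refine win_speak (he a List.mem_cons_self).1 (he a List.mem_cons_self).2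
        (win_all hw hm d k σ ?_ fun e h => he e (List.mem_cons_of_mem _ h))
      simp only [List.length_cons] at hj
      omega
    · have hb' : b = σ := by cases b <;> cases σ <;> simp_all
      subst hb'
      exact win_mono (by omega) (win_all hw hm (a :: d) k b (by tauto) he)

end Pool.Agent.MP_a2d820_lc.h31
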