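import Pool.Agent.MP_a2d820_lc.h31.Embed

/-! The lower bound for bounded decrease. -/

set_option autoImplicit false

namespace Pool.Agent.MP_a2d820_lc.h31

theorem chain {ι : Type} {ψ : List ℕ → Set ι → Prop} {a r : ℕ} (h : Dec ψ a) (ha : a < r)
    (Y : ℕ → Set ι) (hY : Monotone Y) :
    ∃ n < r, ∀ u y y', Y n ⊆ y → y ⊆ y' → y' ⊆ Y (n + 1) → ψ u y → ψ u y' := by
  by_contra hc
  have hex : ∀ n, ∃ y y', Y n ⊆ y ∧ y ⊆ y' ∧ y' ⊆ Y (n + 1) ∧
      (n < r → ∃ u, ψ u y ∧ ¬ ψ u y') := by
    intro n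
    by_cases hn : n < r
    · push Not at hc
      obtain ⟨u, y, y', h1, h2, h3, h4, h5⟩ := hc n hn
      exact ⟨y, y', h1, h2, h3, fun _ => ⟨u, h4, h5⟩⟩
    · exact ⟨Y n, Y n, subset_rfl, subset_rfl, hY (Nat.le_succ n), fun h => (hn h).elim⟩
  choose y y' h1 h2 h3 h4 using hex
  let c : ℕ → Set ι := fun i => if i % 2 = 0 then y (i / 2) else y' (i / 2)
  have e0 : ∀ n, c (2 * n) = y n := fun n => by
    simp only [c]
    rw [if_pos (by omega), show 2 * n / 2 = n by omega]
  have e1 : ∀ n, c (2 * n + 1) = y' n := fun n => by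
    simp only [c]
    rw [if_neg (by omega), show (2 * n + 1) / 2 = n by omega]
  have hmono : Monotone c := by
    refine monotone_nat_of_le_succ fun i => ?_
    obtain ⟨n, rfl | rfl⟩ := Nat.even_or_odd' i
    · rw [e0, e1]; exact h2 n
    · rw [e1, show 2 * n + 1 + 1 = 2 * (n + 1) by ring, e0]
      exact (h3 n).trans (h1 (n + 1))
  have h5 := h c hmono
  have h6 : (fun n => 2 * n) '' Set.Iio r ⊆ {i | ∃ u, ψ u (c i) ∧ ¬ ψ u (c (i + 1))} := by
    rintro _ ⟨n, hn, rfl⟩
    obtain ⟨u, hu⟩ := h4 n hn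
    exact ⟨u, by rw [e0, e1]; exact hu⟩
  have h7 := (Set.encard_le_encard h6).trans h5
  rw [Function.Injective.encard_image (fun x y h => by simpa using h), ← Finset.coe_range,
    Set.encard_coe_eq_coe_finsetCard, Finset.card_range] at h7
  have : r ≤ a := by exact_mod_cast h7
  omega

theorem Alt_congr {M : ℕ} : ∀ (K : ℕ) (b : Bool) (p p' q : List ℕ → Prop),
    (∀ u, u.length = K → (∀ e ∈ u, e < M) → (p u ↔ p' u)) →
    (Alt b (List.replicate K M) p q ↔ Alt b (List.replicate K M) p' q)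
  | 0, true, _, _, _, h => or_congr (h [] rfl (by simp)) Iff.rfl
  | 0, false, _, _, _, h => and_congr (h [] rfl (by simp)) Iff.rfl
  | K + 1, true, _, _, _, h => exists_congr fun i => and_congr_right fun hi =>
      Alt_congr K false _ _ _ fun u hu he =>
        h (i :: u) (by simp [hu]) (List.forall_mem_cons.2 ⟨hi, he⟩)
  | K + 1, false, _, _, _, h => forall_congr' fun i => forall_congr' fun hi =>
      Alt_congr K true _ _ _ fun u hu he =>
        h (i :: u) (by simp [hu]) (List.forall_mem_cons.2 ⟨hi, he⟩)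

/-- the list of entries -/
def lst {K M : ℕ} (v : Fin K → Fin M) : List ℕ := List.ofFn fun i => (v i : ℕ)

theorem length_lst {K M : ℕ} (v : Fin K → Fin M) : (lst v).length = K := List.length_ofFn

theorem lst_lt {K M : ℕ} (v : Fin K → Fin M) : ∀ e ∈ lst v, e < M := by
  intro e he
  obtain ⟨i, rfl⟩ := List.mem_ofFn.1 he
  exact (v i).2

theorem lst_inj {K M : ℕ} {v v' : Fin K → Fin M} (h : lst v = lst v') : v = v' :=
  funext fun i => Fin.ext (congrFun (List.ofFn_injective h) i)

theorem exists_lst {K M : ℕ} (u : List ℕ) (hu : u.length = K) (he : ∀ e ∈ u, e < M) :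
    ∃ v : Fin K → Fin M, lst v = u := by
  subst hu
  exact ⟨fun i => ⟨u[i], he _ (List.getElem_mem _)⟩, List.ofFn_getElem⟩

theorem lower (K0 k M m t : ℕ) (b0 b : Bool) (j s a : ℕ) (hM : 2 * m * t < M)
    (hj : j ≤ k ∨ (j = k + 1 ∧ b = !(pol b0 K0))) (ha : a < M ^ K0 * t ^ (k + 1))
    (h : Rep b j (BFS b0 (k + K0 + 1) M) s a) : 2 ^ m ≤ (4 * s) ^ 4 := by
  classical
  obtain ⟨d, φ, ψ, hd, hpos, hs, hdec, hf⟩ := h
  rcases Nat.eq_zero_or_pos m with hm | hm
  · subst hm
    have hs0 : 0 < s := lt_of_lt_of_le (List.prod_pos hpos) hs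
    exact Nat.one_le_pow _ _ (by omega)
  set r := M ^ K0 * t ^ (k + 1) with hr
  have hcard : Fintype.card ((Fin K0 → Fin M) × (Fin (k + 1) → Fin t)) = r := by simp [hr]
  let en := (Fintype.equivFinOfCardEq hcard).symm
  let key : List ℕ → List ℕ × List ℕ := fun u => (u.take K0, (u.drop K0).map (· / (2 * m)))
  let lab : Fin r → List ℕ × List ℕ := fun i => (lst (en i).1, lst (en i).2)
  have lab_inj : Function.Injective lab := fun i i' h => en.injective
    (Prod.ext (lst_inj (congrArg Prod.fst h)) (lst_inj (congrArg Prod.snd h)))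
  have key_kill : ∀ (u : List ℕ) (i : Fin r), u.length = k + K0 → key (u ++ [M - 1]) ≠ lab i := by
    intro u i hu h
    have h1 : ((u ++ [M - 1]).drop K0).map (· / (2 * m)) = lst (en i).2 := congrArg Prod.snd h
    rw [List.drop_append_of_le_length (by omega)] at h1
    have h2 := lst_lt (en i).2 ((M - 1) / (2 * m)) (by rw [← h1]; simp)
    rw [Nat.div_lt_iff_lt_mul (by omega), mul_comm] at h2
    omega
  set γ := pol b0 (k + K0) with hγ
  let Y : ℕ → Set (Fin (k + K0 + 1) → Fin M) := fun n =>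
    {v | (γ = true ∧ ∃ u, lst v = u ++ [M - 1]) ∨ ∃ i : Fin r, (i : ℕ) < n ∧ key (lst v) = lab i}
  have hY : Monotone Y := fun n n' hn v hv =>
    hv.imp id fun ⟨i, h1, h2⟩ => ⟨i, lt_of_lt_of_le h1 hn, h2⟩
  obtain ⟨n, hn, hmono⟩ := chain hdec ha Y hY
  set pre := lst (en ⟨n, hn⟩).1 with hpre
  set z := lst (en ⟨n, hn⟩).2 with hz
  have lpre : pre.length = K0 := length_lst _
  have lz : z.length = k + 1 := length_lst _
  have zne : z ≠ [] := by
    intro h
    rw [h] at lz
    simp at lz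
  have spec := fun (β : Bool) (l : List (Fin m)) (hl : l.length = k + 1) =>
    enc_spec hM β z l zne (hl.trans lz.symm) (lst_lt _)
  have key_enc : ∀ (β : Bool) (l : List (Fin m)), l.length = k + 1 →
      key (pre ++ enc m z l β) = lab ⟨n, hn⟩ := by
    intro β l hl
    refine Prod.ext ?_ ?_
    · exact List.take_left' lpre
    · show ((pre ++ enc m z l β).drop K0).map (· / (2 * m)) = z
      rw [List.drop_left' lpre]
      exact (spec β l hl).2
  let emb : Set (List (Fin m) × Bool) → Set (Fin (k + K0 + 1) → Fin M) := fun zs =>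
    Y n ∪ {v | ∃ l β, l.length = k + 1 ∧ (l, β) ∈ zs ∧ lst v = pre ++ enc m z l β}
  have emb_le : ∀ zs, emb zs ⊆ Y (n + 1) := by
    rintro zs v (hv | ⟨l, β, hl, _, hv⟩)
    · exact hY (Nat.le_succ n) hv
    · exact Or.inr ⟨⟨n, hn⟩, Nat.lt_succ_self n, by rw [hv]; exact key_enc β l hl⟩
  have hkil : ∀ zs, Kil M γ (k + K0) (Mem (emb zs)) := by
    intro zs u hu he
    constructor
    · rintro ⟨v, hv, hv'⟩
      rcases emb_le zs hv with h1 | ⟨i, _, h1⟩
      · exact h1.1
      · have hv'' : lst v = u ++ [M - 1] := hv'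
        rw [hv''] at h1
        exact (key_kill u i hu h1).elim
    · intro hg
      obtain ⟨v, hv⟩ := exists_lst (K := k + K0 + 1) (M := M) (u ++ [M - 1]) (by simp [hu]) (by
        intro e h1
        rcases List.mem_append.1 h1 with h1 | h1
        · exact he e h1
        · rw [List.mem_singleton.1 h1]; omega)
      exact ⟨v, Or.inl (Or.inl ⟨hg, u, hv⟩), hv⟩
  have hmem : ∀ zs (l : List (Fin m)) (β : Bool), l.length = k + 1 →
      (Mem (emb zs) (pre ++ enc m z l β) ↔ (l, β) ∈ zs) := by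
    intro zs l β hl
    constructor
    · rintro ⟨v, hv, hv'⟩
      have hv'' : lst v = pre ++ enc m z l β := hv'
      have h0 := key_enc β l hl
      rcases hv with (⟨_, u, h1⟩ | ⟨i, hi, h1⟩) | ⟨l', β', hl', h1, h2⟩
      · have h2 := length_lst v
        rw [h1] at h2
        rw [← hv'', h1] at h0
        exact (key_kill u _ (by simpa using h2) h0).elim
      · rw [hv'', h0] at h1
        rw [← lab_inj h1] at hi
        exact (lt_irrefl _ hi).elim
      · rw [hv''] at h2
        rw [enc_inj β β' z l l' zne (hl.trans lz.symm) (hl'.trans lz.symm)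
          (List.append_cancel_left h2)]
        exact h1
    · intro h1
      obtain ⟨v, hv⟩ := exists_lst (K := k + K0 + 1) (M := M) (pre ++ enc m z l β) (by
        have := congrArg List.length (spec β l hl).2
        rw [List.length_map] at this
        rw [List.length_append]
        omega) (by
        intro e h1
        rcases List.mem_append.1 h1 with h1 | h1
        · exact lst_lt _ e h1
        · exact (spec β l hl).1 e h1)
      exact ⟨v, Or.inr ⟨l, β, hl, h1, hv⟩, hv⟩
  choose p hp using fun ξ => outer hM k z lz (lst_lt _) ξ pre b0 (lst_lt _)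
  rw [lpre] at hp
  refine core m k (pol b0 K0) b d s hpos hs (by rw [hd]; exact hj)
    (fun u ξ => φ u {v | p ξ (lst v)}) (fun u zs => ψ u (emb zs)) ?_ ?_
  · intro u zs zs' hzs
    refine hmono u _ _ Set.subset_union_left ?_ (emb_le zs')
    exact Set.union_subset_union_right _ fun v ⟨l, β, h1, h2, h3⟩ => ⟨l, β, h1, hzs h2, h3⟩
  · intro ξ zs
    refine (hf _ _).symm.trans ((Alt_congr _ b0 _ (p ξ) _ fun u hu he => ?_).trans
      ((hp ξ _ (hkil zs)).trans (G_congr m _ _ _ _ fun l hl => hmem zs l _ hl)))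
    constructor
    · rintro ⟨v, hv, hv'⟩
      have hv'' : lst v = u := hv'
      rw [← hv'']
      exact hv
    · intro h1
      obtain ⟨v, hv⟩ := exists_lst u hu he
      exact ⟨v, show p ξ (lst v) by rw [hv]; exact h1, hv⟩

end Pool.Agent.MP_a2d820_lc.h31
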